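import Mathlib

set_option autoImplicit false

namespace Pool.Agent.Results.MP_ca7dc8_pr.Q1
open Finset

/-- position in `ℤ^d` after the steps `w` (each step: a coordinate and a sign) -/
def pos {d t : ℕ} (w : Fin t → Fin d × Bool) : Fin d → ℤ :=
  ∑ s, Pi.single (w s).1 (if (w s).2 then 1 else -1)

/-- `p_{n,d}(t)`: probability that some of `n` independent simple random walks is alone at
time `t` (all step sequences equally likely) -/
def p (n d t : ℕ) : ℚ :=
  ((univ.filter (fun W : Fin n → Fin t → Fin d × Bool =>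
    ∃ i, ∀ j, j ≠ i → pos (W j) ≠ pos (W i))).card : ℚ) / ((2 * d : ℚ) ^ t) ^ n

section gen
variable {Ω : Type} [Fintype Ω] [DecidableEq Ω] {n : ℕ}

def E (n : ℕ) (A : Finset Ω) : Finset (Fin n → Ω) :=
  univ.filter (fun f => ∃ i, f i ∈ A ∧ ∀ j, j ≠ i → f j ∉ A)

lemma card_E (A : Finset Ω) :
    (E (n + 1) A).card = (n + 1) * (A.card * (Fintype.card Ω - A.card) ^ n) := by
  have e : E (n + 1) A = univ.biUnion (fun i : Fin (n + 1) =>
      Fintype.piFinset (fun j => if j = i then A else Aᶜ)) := by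
    ext f
    simp only [E, mem_filter, mem_univ, true_and, mem_biUnion, Fintype.mem_piFinset]
    apply exists_congr
    intro i
    constructor
    · rintro ⟨h1, h2⟩ j
      split_ifs with h
      · rw [h]; exact h1
      · exact mem_compl.2 (h2 j h)
    · intro h
      refine ⟨by simpa using h i, fun j hj => ?_⟩
      simpa [hj] using h j
  rw [e, card_biUnion]
  · have : ∀ i : Fin (n + 1), (Fintype.piFinset (fun j => if j = i then A else Aᶜ)).card =
        A.card * (Fintype.card Ω - A.card) ^ n := by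
      intro i
      rw [Fintype.card_piFinset, Fin.prod_univ_succAbove _ i]
      simp [Fin.succAbove_ne, card_compl]
    simp [this]
  · intro i _ j _ hij
    rw [Function.onFun, disjoint_left]
    intro f h1 h2
    rw [Fintype.mem_piFinset] at h1 h2
    have a := h1 i
    have b := h2 i
    rw [if_pos rfl] at a
    rw [if_neg hij] at b
    exact mem_compl.1 b a

lemma card_EE (A B : Finset Ω) (hAB : Disjoint A B) :
    (E (n + 2) A ∩ E (n + 2) B).card =
      (n + 2) * (n + 1) * (A.card * B.card * (Fintype.card Ω - (A.card + B.card)) ^ n) := by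
  have hd := disjoint_left.1 hAB
  have e : E (n + 2) A ∩ E (n + 2) B = (univ : Finset (Fin (n + 2))).offDiag.biUnion (fun q =>
      Fintype.piFinset (fun j => if j = q.1 then A else if j = q.2 then B else (A ∪ B)ᶜ)) := by
    ext f
    simp only [E, mem_inter, mem_filter, mem_univ, true_and, mem_biUnion, Fintype.mem_piFinset,
      mem_offDiag]
    constructor
    · rintro ⟨⟨i, h1, h2⟩, ⟨i', h3, h4⟩⟩
      refine ⟨(i, i'), fun h => hd h1 (by simp only at h; rw [h]; exact h3), fun j => ?_⟩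
      split_ifs with a b
      · rw [a]; exact h1
      · rw [b]; exact h3
      · exact mem_compl.2 (fun h => (mem_union.1 h).elim (h2 j a) (h4 j b))
    · rintro ⟨⟨i, i'⟩, hne, h⟩
      simp only at hne h
      have hi : f i ∈ A := by simpa using h i
      have hi' : f i' ∈ B := by simpa [Ne.symm hne] using h i'
      refine ⟨⟨i, hi, fun j hj hA => ?_⟩, ⟨i', hi', fun j hj hB => ?_⟩⟩
      · by_cases b : j = i'
        · exact hd hA (b ▸ hi')
        · have := h j
          rw [if_neg hj, if_neg b] at this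
          exact mem_compl.1 this (mem_union_left _ hA)
      · by_cases a : j = i
        · exact hd (a ▸ hi) hB
        · have := h j
          rw [if_neg a, if_neg hj] at this
          exact mem_compl.1 this (mem_union_right _ hB)
  rw [e, card_biUnion]
  · have : ∀ q ∈ (univ : Finset (Fin (n + 2))).offDiag, (Fintype.piFinset
        (fun j => if j = q.1 then A else if j = q.2 then B else (A ∪ B)ᶜ)).card =
        A.card * B.card * (Fintype.card Ω - (A.card + B.card)) ^ n := by
      rintro ⟨i, i'⟩ hq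
      have hne : i ≠ i' := (mem_offDiag.1 hq).2.2
      rw [Fintype.card_piFinset, ← Finset.mul_prod_erase _ _ (mem_univ i),
        ← Finset.mul_prod_erase _ _ (mem_erase.2 ⟨hne.symm, mem_univ i'⟩)]
      rw [Finset.prod_congr rfl (g := fun _ => Fintype.card Ω - (A.card + B.card))]
      · rw [prod_const, card_erase_of_mem (mem_erase.2 ⟨hne.symm, mem_univ i'⟩),
          card_erase_of_mem (mem_univ i)]
        simp [hne.symm, mul_assoc]
      · intro j hj
        have h1 := (mem_erase.1 hj).1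
        have h2 := (mem_erase.1 (mem_erase.1 hj).2).1
        simp only [if_neg h1, if_neg h2, card_compl, card_union_of_disjoint hAB]
    rw [Finset.sum_congr rfl this, sum_const, offDiag_card, card_univ, Fintype.card_fin,
      smul_eq_mul]
    congr 1
    have : (n + 2) * (n + 2) = (n + 2) * (n + 1) + (n + 2) := by ring
    omega
  · rintro ⟨i, i'⟩ h ⟨j, j'⟩ h' hij
    have hne : i ≠ i' := (mem_offDiag.1 h).2.2
    have hne' : j ≠ j' := (mem_offDiag.1 h').2.2
    rw [Function.onFun, disjoint_left]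
    intro f h1 h2
    rw [Fintype.mem_piFinset] at h1 h2
    have a : f i ∈ A := by simpa using h1 i
    have a' : f i' ∈ B := by simpa [hne.symm] using h1 i'
    have b := h2 i
    have b' := h2 i'
    simp only at b b'
    have e1 : i = j := by
      by_contra hh
      rw [if_neg hh] at b
      split_ifs at b
      · exact hd a b
      · exact mem_compl.1 b (mem_union_left _ a)
    have e2 : i' = j' := by
      by_contra hh
      rw [if_neg (e1 ▸ hne.symm), if_neg hh] at b'
      exact mem_compl.1 b' (mem_union_right _ a')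
    exact hij (by rw [e1, e2])

end gen

/-- number of up-steps -/
def up {t : ℕ} (w : Fin t → Fin 1 × Bool) : ℕ := ∑ s, if (w s).2 then 1 else 0

lemma pos_eq {t : ℕ} (w : Fin t → Fin 1 × Bool) : pos w = fun _ => 2 * (up w : ℤ) - t := by
  funext a
  have h : ∀ s, (Pi.single (w s).1 (if (w s).2 then 1 else -1) : Fin 1 → ℤ) a =
      2 * ((if (w s).2 then 1 else 0 : ℕ) : ℤ) - 1 := by
    intro s
    rw [Subsingleton.elim (w s).1 a, Pi.single_eq_same]
    split_ifs <;> simp
  simp only [pos, up, Finset.sum_apply, h, sum_sub_distrib, ← mul_sum]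
  simp

lemma pos_iff {t : ℕ} (w w' : Fin t → Fin 1 × Bool) : pos w = pos w' ↔ up w = up w' := by
  rw [pos_eq, pos_eq]
  constructor
  · intro h
    have : 2 * (up w : ℤ) - t = 2 * (up w' : ℤ) - t := congrFun h 0
    omega
  · intro h; rw [h]

def Fb (t k : ℕ) : Finset (Fin t → Fin 1 × Bool) := univ.filter (fun w => up w = k)

lemma card_Fb (t k : ℕ) : (Fb t k).card = t.choose k := by
  have : t.choose k = (powersetCard k (univ : Finset (Fin t))).card := by simp
  rw [this]
  apply Finset.card_bij (fun w _ => univ.filter (fun s => (w s).2 = true))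
  · intro w hw
    rw [mem_powersetCard]
    refine ⟨subset_univ _, ?_⟩
    rw [card_filter]
    exact (mem_filter.1 hw).2
  · intro w _ w' _ h
    funext s
    refine Prod.ext (Subsingleton.elim _ _) ?_
    have := Finset.ext_iff.1 h s
    simp only [mem_filter, mem_univ, true_and] at this
    exact Bool.eq_iff_iff.2 this
  · intro S hS
    refine ⟨fun s => (0, decide (s ∈ S)), ?_, by ext s; simp⟩
    refine mem_filter.2 ⟨mem_univ _, ?_⟩
    simp [up, (mem_powersetCard.1 hS).2]

lemma up_le {t : ℕ} (w : Fin t → Fin 1 × Bool) : up w ≤ t := by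
  calc up w ≤ ∑ _s : Fin t, 1 := Finset.sum_le_sum (fun s _ => by split_ifs <;> omega)
    _ = t := by simp

def Lon (n t : ℕ) : Finset (Fin n → Fin t → Fin 1 × Bool) :=
  univ.filter (fun W => ∃ i, ∀ j, j ≠ i → pos (W j) ≠ pos (W i))

lemma sub_Lon (n t k : ℕ) : E n (Fb t k) ⊆ Lon n t := by
  intro W hW
  obtain ⟨i, h1, h2⟩ := (mem_filter.1 hW).2
  refine mem_filter.2 ⟨mem_univ _, i, fun j hj h => h2 j hj ?_⟩
  rw [pos_iff] at h
  exact mem_filter.2 ⟨mem_univ _, h.trans (mem_filter.1 h1).2⟩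

lemma Lon_sub (n t : ℕ) : Lon n t ⊆
    (E n (Fb t 0) ∪ E n (Fb t t)) ∪ (Ioo 0 t).biUnion (fun k => E n (Fb t k)) := by
  intro W hW
  obtain ⟨i, h⟩ := (mem_filter.1 hW).2
  have hm : W ∈ E n (Fb t (up (W i))) := by
    refine mem_filter.2 ⟨mem_univ _, i, mem_filter.2 ⟨mem_univ _, rfl⟩, fun j hj hh => h j hj ?_⟩
    rw [pos_iff]
    exact (mem_filter.1 hh).2
  have := up_le (W i)
  by_cases h0 : up (W i) = 0
  · exact mem_union_left _ (mem_union_left _ (h0 ▸ hm))
  · by_cases h1 : up (W i) = t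
    · exact mem_union_left _ (mem_union_right _ (by rw [h1] at hm; exact hm))
    · exact mem_union_right _ (mem_biUnion.2 ⟨_, mem_Ioo.2 ⟨by omega, by omega⟩, hm⟩)

lemma card_two (n t : ℕ) (ht : 0 < t) : (E (n + 2) (Fb t 0) ∪ E (n + 2) (Fb t t)).card +
    (n + 2) * (n + 1) * (2 ^ t - 2) ^ n = 2 * ((n + 2) * (2 ^ t - 1) ^ (n + 1)) := by
  have h := card_union_add_card_inter (E (n + 2) (Fb t 0)) (E (n + 2) (Fb t t))
  rw [card_EE _ _ (by
    rw [disjoint_left]
    intro w h1 h2
    have a := (mem_filter.1 h1).2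
    have b := (mem_filter.1 h2).2
    omega), card_E, card_E] at h
  simp only [card_Fb, Nat.choose_zero_right, Nat.choose_self, Fintype.card_fun, Fintype.card_prod,
    Fintype.card_fin, Fintype.card_bool, one_mul] at h
  rw [h]; ring

lemma fin (a b : ℕ) (n t : ℕ) (h : a < b * 2 ^ n) :
    (a : ℚ) / ((2 * ((1:ℕ) : ℚ)) ^ (t + 1)) ^ n < (b : ℚ) / ((2 * ((1:ℕ) : ℚ)) ^ t) ^ n := by
  rw [div_lt_div_iff₀ (by positivity) (by positivity)]
  have k2 : (a : ℚ) < b * 2 ^ n := by exact_mod_cast h
  have e : ((2 * ((1:ℕ) : ℚ)) ^ (t + 1)) ^ n = 2 ^ n * ((2 * ((1:ℕ) : ℚ)) ^ t) ^ n := by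
    rw [pow_succ, mul_pow, mul_comm]; simp
  rw [e, ← mul_assoc]
  exact mul_lt_mul_of_pos_right k2 (by positivity)

lemma gen (n t : ℕ) (ht : 0 < t)
    (num : (2 * ((n + 2) * (2 ^ (t + 1) - 1) ^ (n + 1)) - (n + 2) * (n + 1) * (2 ^ (t + 1) - 2) ^ n +
      ∑ k ∈ Ioo 0 (t + 1), (n + 2) * ((t + 1).choose k * (2 ^ (t + 1) - (t + 1).choose k) ^ (n + 1))) <
      (2 * ((n + 2) * (2 ^ t - 1) ^ (n + 1)) - (n + 2) * (n + 1) * (2 ^ t - 2) ^ n) * 2 ^ (n + 2)) :
    p (n + 2) 1 (t + 1) < p (n + 2) 1 t := by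
  have lo : (E (n + 2) (Fb t 0) ∪ E (n + 2) (Fb t t)).card ≤ (Lon (n + 2) t).card :=
    card_le_card (union_subset (sub_Lon _ _ _) (sub_Lon _ _ _))
  have hi : (Lon (n + 2) (t + 1)).card ≤ (E (n + 2) (Fb (t + 1) 0) ∪ E (n + 2) (Fb (t + 1) (t + 1))).card +
      ∑ k ∈ Ioo 0 (t + 1), (E (n + 2) (Fb (t + 1) k)).card :=
    (card_le_card (Lon_sub _ _)).trans ((card_union_le _ _).trans
      (Nat.add_le_add_left card_biUnion_le _))
  have c9 := card_two n t ht
  have c10 := card_two n (t + 1) (by omega)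
  have s : ∑ k ∈ Ioo 0 (t + 1), (E (n + 2) (Fb (t + 1) k)).card =
      ∑ k ∈ Ioo 0 (t + 1),
        (n + 2) * ((t + 1).choose k * (2 ^ (t + 1) - (t + 1).choose k) ^ (n + 1)) := by
    apply Finset.sum_congr rfl
    intro k _
    rw [card_E (n := n + 1), card_Fb]
    simp
  rw [s] at hi
  have key : (Lon (n + 2) (t + 1)).card < (Lon (n + 2) t).card * 2 ^ (n + 2) := by
    have e9 := Nat.eq_sub_of_add_eq c9
    have e10 := Nat.eq_sub_of_add_eq c10
    calc (Lon (n + 2) (t + 1)).card ≤ _ := hi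
      _ = _ := by rw [e10]
      _ < _ := num
      _ ≤ _ := Nat.mul_le_mul_right _ (e9 ▸ lo)
  exact fin _ _ (n + 2) t key

theorem result : ∃ d n t : ℕ, 1 ≤ d ∧ 1 ≤ n ∧ p n d (t + 1) < p n d t :=
  ⟨1, 510 + 2, 9, le_rfl, by norm_num, gen 510 9 (by norm_num) (by decide +kernel)⟩

end Pool.Agent.Results.MP_ca7dc8_pr.Q1
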